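import Pool.Agent.Helper381.Defs

/-! Riemannian structures and geodesic symmetries. -/

set_option autoImplicit false

open scoped Manifold ContDiff
open Bundle Manifold
open Pool.Agent.Helper381

namespace Pool.Agent.U834.TwoN

/-- A smooth Riemannian structure, with model vector space `V`, on the metric space `M`: a smooth
atlas and a smooth Riemannian metric on the tangent bundle for which the distance of `M` is the
infimum of the lengths of the paths. -/
structure Riem (V M : Type) [NormedAddCommGroup V] [NormedSpace ℝ V] [MetricSpace M] where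
  charted : ChartedSpace V M
  smooth : IsManifold 𝓘(ℝ, V) ∞ M
  bundle : RiemannianBundle (fun x : M => TangentSpace 𝓘(ℝ, V) x)
  smoothMetric : IsContMDiffRiemannianBundle 𝓘(ℝ, V) ∞ V (fun x : M => TangentSpace 𝓘(ℝ, V) x)
  riemannian : IsRiemannianManifold 𝓘(ℝ, V) M

/-- `s` is smooth and its differential at `x` is `-id`. -/
def NegAt {V M : Type} [NormedAddCommGroup V] [NormedSpace ℝ V] [MetricSpace M] (S : Riem V M)
    (x : M) (s : M ≃ᵢ M) : Prop :=
  let _ := S.charted
  ContMDiff 𝓘(ℝ, V) 𝓘(ℝ, V) ∞ s ∧
    mfderiv 𝓘(ℝ, V) 𝓘(ℝ, V) s x = -ContinuousLinearMap.id ℝ V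

end Pool.Agent.U834.TwoN
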