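import Pool.Agent.Y503.HC.Isom
import Pool.Agent.Y503.HC.FinQuot

/-! The product metric on `S³ × S³ × S³`, its isometries, and its quotients. -/

set_option autoImplicit false

open scoped Manifold ContDiff Topology ENNReal Quaternion
open Set Bundle Bornology Filter Manifold Module
open Pool.Agent.Y503.HC

noncomputable section

namespace Pool.Agent.U834.TwoN

section General

variable {E : Type} [NormedAddCommGroup E] [NormedSpace ℝ E] {H : Type} [TopologicalSpace H]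
  {I : ModelWithCorners ℝ E H}
  {M : Type} [TopologicalSpace M] [ChartedSpace H M] [IsManifold I ∞ M]

omit [IsManifold I ∞ M] in
/-- the derivative of the composition with a linear map -/
lemma Dm_clm {W W' : Type} [NormedAddCommGroup W] [NormedSpace ℝ W] [NormedAddCommGroup W']
    [NormedSpace ℝ W'] {ι : M → W} {x : M} (h1 : MDifferentiableAt I 𝓘(ℝ, W) ι x)
    (r : W →L[ℝ] W') (w : E) : Dm I (r ∘ ι) x w = r (Dm I ι x w) := by
  have e3 := (r.hasFDerivAt (x := ι x)).hasMFDerivAt.comp x h1.hasMFDerivAt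
  exact congrArg (fun L : E →L[ℝ] W' => L w) e3.mfderiv

/-- a smooth map which is the restriction of a linear isometry preserves the metric -/
lemma inf_isom {V : Type} [NormedAddCommGroup V] [InnerProductSpace ℝ V] {g : Metric I M}
    {F : M → V} (hF : IsImm g F) {φ : M → M} (hφ : ContMDiff I I ∞ φ) (T : V →L[ℝ] V)
    (hT : ∀ v w, inner ℝ (T v) (T w) = inner ℝ v w) (h : ∀ x, F (φ x) = T (F x))
    (x : M) (v w : TangentSpace I x) :
    g.inner (φ x) (mfderiv I I φ x v) (mfderiv I I φ x w) = g.inner x v w := by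
  have d1 : MDifferentiableAt I 𝓘(ℝ, V) F (φ x) := (hF.smooth _).mdifferentiableAt (by simp)
  have d2 : MDifferentiableAt I I φ x := (hφ x).mdifferentiableAt (by simp)
  have d3 : MDifferentiableAt I 𝓘(ℝ, V) F x := (hF.smooth _).mdifferentiableAt (by simp)
  have e1 := mfderiv_comp x d1 d2
  have e2 : F ∘ φ = T ∘ F := funext h
  have e3 : ∀ u : E, Dm I F (φ x) (mfderiv I I φ x u : E) = T (Dm I F x u) := by
    intro u
    have e4 : Dm I (F ∘ φ) x u = Dm I F (φ x) (mfderiv I I φ x u : E) :=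
      congrArg (fun L : E →L[ℝ] V => L u) e1
    rw [← e4, e2]
    exact Dm_clm d3 T u
  have h1 : (g.inner (φ x) : E →L[ℝ] E →L[ℝ] ℝ) (mfderiv I I φ x v) (mfderiv I I φ x w) =
      inner ℝ (Dm I F (φ x) (mfderiv I I φ x v : E)) (Dm I F (φ x) (mfderiv I I φ x w : E)) :=
    hF.iso _ _ _
  refine h1.trans ?_
  refine (congrArg₂ (fun u w : V => (inner ℝ u w : ℝ)) (e3 v) (e3 w)).trans ?_
  exact (hT _ _).trans (hF.iso x v w).symm

end General

section ProdImm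

variable {E1 : Type} [NormedAddCommGroup E1] [NormedSpace ℝ E1] {H1 : Type} [TopologicalSpace H1]
  {I1 : ModelWithCorners ℝ E1 H1} {M1 : Type} [TopologicalSpace M1] [ChartedSpace H1 M1]
  {E2 : Type} [NormedAddCommGroup E2] [NormedSpace ℝ E2] {H2 : Type} [TopologicalSpace H2]
  {I2 : ModelWithCorners ℝ E2 H2} {M2 : Type} [TopologicalSpace M2] [ChartedSpace H2 M2]
  {V1 : Type} [NormedAddCommGroup V1] [InnerProductSpace ℝ V1]
  {V2 : Type} [NormedAddCommGroup V2] [InnerProductSpace ℝ V2]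

/-- the product of two maps into Euclidean spaces -/
def prodEmb (f1 : M1 → V1) (f2 : M2 → V2) (x : M1 × M2) : WithLp 2 (V1 × V2) :=
  WithLp.toLp 2 (f1 x.1, f2 x.2)

lemma prodEmb_smooth {f1 : M1 → V1} {f2 : M2 → V2} (h1 : ContMDiff I1 𝓘(ℝ, V1) ∞ f1)
    (h2 : ContMDiff I2 𝓘(ℝ, V2) ∞ f2) :
    ContMDiff (I1.prod I2) 𝓘(ℝ, WithLp 2 (V1 × V2)) ∞ (prodEmb f1 f2) := by
  have h3 : ContMDiff (I1.prod I2) 𝓘(ℝ, V1 × V2) ∞ (fun x : M1 × M2 => (f1 x.1, f2 x.2)) :=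
    ContMDiff.prodMk_space (h1.comp contMDiff_fst) (h2.comp contMDiff_snd)
  exact (WithLp.prodContinuousLinearEquiv 2 ℝ V1 V2).symm.contDiff.contMDiff.comp h3

lemma prodEmb_inj {f1 : M1 → V1} {f2 : M2 → V2} (h1 : ContMDiff I1 𝓘(ℝ, V1) ∞ f1)
    (h2 : ContMDiff I2 𝓘(ℝ, V2) ∞ f2) (i1 : ∀ x, Function.Injective (Dm I1 f1 x))
    (i2 : ∀ x, Function.Injective (Dm I2 f2 x)) (x : M1 × M2) :
    Function.Injective (Dm (I1.prod I2) (prodEmb f1 f2) x) := by
  have d0 : MDifferentiableAt (I1.prod I2) 𝓘(ℝ, WithLp 2 (V1 × V2)) (prodEmb f1 f2) x :=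
    (prodEmb_smooth h1 h2 x).mdifferentiableAt (by simp)
  intro u v huv
  have e1 : ∀ w : E1 × E2, (WithLp.fstL 2 ℝ V1 V2) (Dm (I1.prod I2) (prodEmb f1 f2) x w) =
      Dm I1 f1 x.1 w.1 := by
    intro w
    rw [← Dm_clm d0]
    have d1 : MDifferentiableAt I1 𝓘(ℝ, V1) f1 x.1 := (h1 x.1).mdifferentiableAt (by simp)
    have h3 := mfderiv_comp x d1 (mdifferentiableAt_fst (I := I1) (I' := I2) (x := x))
    have h4 := congrArg (fun L : E1 × E2 →L[ℝ] V1 => L w) h3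
    rw [mfderiv_fst] at h4
    exact h4
  have e2 : ∀ w : E1 × E2, (WithLp.sndL 2 ℝ V1 V2) (Dm (I1.prod I2) (prodEmb f1 f2) x w) =
      Dm I2 f2 x.2 w.2 := by
    intro w
    rw [← Dm_clm d0]
    have d1 : MDifferentiableAt I2 𝓘(ℝ, V2) f2 x.2 := (h2 x.2).mdifferentiableAt (by simp)
    have h3 := mfderiv_comp x d1 (mdifferentiableAt_snd (I := I1) (I' := I2) (x := x))
    have h4 := congrArg (fun L : E1 × E2 →L[ℝ] V2 => L w) h3
    rw [mfderiv_snd] at h4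
    exact h4
  apply Prod.ext
  · apply i1 x.1
    rw [← e1 u, ← e1 v, huv]
  · apply i2 x.2
    rw [← e2 u, ← e2 v, huv]

end ProdImm

/-! ### The product of three copies of the three-sphere -/

/-- `S³ × S³ × S³` -/
abbrev NN : Type := S3 × (S3 × S3)

/-- the model of `S³ × S³ × S³` -/
abbrev J3 : ModelWithCorners ℝ (E3 × (E3 × E3)) (ModelProd E3 (ModelProd E3 E3)) :=
  (𝓡 3).prod ((𝓡 3).prod (𝓡 3))

/-- the Euclidean space of the triples of quaternions -/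
abbrev WW : Type := WithLp 2 (ℍ[ℝ] × WithLp 2 (ℍ[ℝ] × ℍ[ℝ]))

/-- the inclusion of `S³` -/
def cS : S3 → ℍ[ℝ] := fun x => (x : ℍ[ℝ])

lemma cS_smooth : ContMDiff (𝓡 3) 𝓘(ℝ, ℍ[ℝ]) ∞ cS := contMDiff_coe_sphere (m := ∞)

lemma cS_inj (x : S3) : Function.Injective (Dm (𝓡 3) cS x) := mfderiv_coe_sphere_injective (n := 3) x

/-- the inclusion of `S³ × S³ × S³` -/
def FF : NN → WW := prodEmb cS (prodEmb cS cS)

lemma FF_smooth : ContMDiff J3 𝓘(ℝ, WW) ∞ FF :=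
  prodEmb_smooth cS_smooth (prodEmb_smooth cS_smooth cS_smooth)

lemma FF_inj (x : NN) : Function.Injective (Dm J3 FF x) :=
  prodEmb_inj cS_smooth (prodEmb_smooth cS_smooth cS_smooth) cS_inj
    (prodEmb_inj cS_smooth cS_smooth cS_inj cS_inj) x

/-- the product metric -/
def gN : Metric J3 NN :=
  Pool.Agent.H839R2.Geo.embMetric FF FF_smooth FF_inj (fun _ => innerSL ℝ)
    (fun _ => contDiffAt_const) (fun _ v w => real_inner_comm w v)
    (fun _ v hv => real_inner_self_pos.2 hv)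

lemma isImmF : IsImm gN FF where
  smooth := FF_smooth
  iso _ _ _ := rfl

/-- a linear isometry acts on the sphere -/
def sphMap (T : ℍ[ℝ] ≃ₗᵢ[ℝ] ℍ[ℝ]) (x : S3) : S3 :=
  ⟨T x, by rw [mem_sphere_zero_iff_norm, T.norm_map]; exact norm_S3 x⟩

lemma sphMap_coe (T : ℍ[ℝ] ≃ₗᵢ[ℝ] ℍ[ℝ]) (x : S3) : ((sphMap T x : S3) : ℍ[ℝ]) = T x := rfl

lemma sphMap_smooth (T : ℍ[ℝ] ≃ₗᵢ[ℝ] ℍ[ℝ]) : ContMDiff (𝓡 3) (𝓡 3) ∞ (sphMap T) := by
  have h : ContMDiff (𝓡 3) 𝓘(ℝ, ℍ[ℝ]) ∞ (fun x : S3 => T (x : ℍ[ℝ])) :=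
    T.toContinuousLinearEquiv.contDiff.contMDiff.comp cS_smooth
  exact h.codRestrict_sphere (fun x => (sphMap T x).2)

/-- three linear isometries act on the product -/
def act3 (T : Fin 3 → ℍ[ℝ] ≃ₗᵢ[ℝ] ℍ[ℝ]) (x : NN) : NN :=
  (sphMap (T 0) x.1, sphMap (T 1) x.2.1, sphMap (T 2) x.2.2)

lemma act3_smooth (T : Fin 3 → ℍ[ℝ] ≃ₗᵢ[ℝ] ℍ[ℝ]) : ContMDiff J3 J3 ∞ (act3 T) := by
  apply ContMDiff.prodMk
  · exact (sphMap_smooth (T 0)).comp contMDiff_fst
  · apply ContMDiff.prodMk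
    · exact (sphMap_smooth (T 1)).comp (contMDiff_fst.comp contMDiff_snd)
    · exact (sphMap_smooth (T 2)).comp (contMDiff_snd.comp contMDiff_snd)

/-- the three isometries acting on the ambient space -/
def amb (T : Fin 3 → ℍ[ℝ] ≃ₗᵢ[ℝ] ℍ[ℝ]) : WW →ₗ[ℝ] WW where
  toFun X := WithLp.toLp 2 (T 0 X.fst, WithLp.toLp 2 (T 1 X.snd.fst, T 2 X.snd.snd))
  map_add' X Y := by
    apply WithLp.ofLp_injective
    apply Prod.ext
    · simp
    · apply WithLp.ofLp_injective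
      apply Prod.ext
      · simp
      · simp
  map_smul' c X := by
    apply WithLp.ofLp_injective
    apply Prod.ext
    · simp
    · apply WithLp.ofLp_injective
      apply Prod.ext
      · simp
      · simp

lemma inner_ww (X Y : WW) : inner ℝ X Y =
    inner ℝ X.fst Y.fst + (inner ℝ X.snd.fst Y.snd.fst + inner ℝ X.snd.snd Y.snd.snd) := by
  rw [WithLp.prod_inner_apply, WithLp.prod_inner_apply]
  rfl

lemma amb_inner (T : Fin 3 → ℍ[ℝ] ≃ₗᵢ[ℝ] ℍ[ℝ]) (X Y : WW) :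
    inner ℝ (LinearMap.toContinuousLinearMap (amb T) X)
      (LinearMap.toContinuousLinearMap (amb T) Y) = inner ℝ X Y := by
  rw [inner_ww, inner_ww]
  show inner ℝ (T 0 X.fst) (T 0 Y.fst) + (inner ℝ (T 1 X.snd.fst) (T 1 Y.snd.fst) +
    inner ℝ (T 2 X.snd.snd) (T 2 Y.snd.snd)) = _
  rw [(T 0).inner_map_map, (T 1).inner_map_map, (T 2).inner_map_map]

lemma FF_act3 (T : Fin 3 → ℍ[ℝ] ≃ₗᵢ[ℝ] ℍ[ℝ]) (x : NN) :
    FF (act3 T x) = LinearMap.toContinuousLinearMap (amb T) (FF x) := rfl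

lemma act3_isom (T : Fin 3 → ℍ[ℝ] ≃ₗᵢ[ℝ] ℍ[ℝ]) (x : NN) (v w : TangentSpace J3 x) :
    gN.inner (act3 T x) (mfderiv J3 J3 (act3 T) x v) (mfderiv J3 J3 (act3 T) x w) =
      gN.inner x v w :=
  inf_isom isImmF (act3_smooth T) (LinearMap.toContinuousLinearMap (amb T)) (amb_inner T)
    (FF_act3 T) x v w

end Pool.Agent.U834.TwoN
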