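import Pool.Agent.Helper381.Defs

/-! Singular cohomology and the total Betti number are invariant under homeomorphisms. -/

set_option autoImplicit false

noncomputable section

namespace Pool.Agent.U834.TwoN

open Pool.Agent.Helper381

universe u v w

variable {k : Type v} [CommRing k] {X : Type u} {Y : Type w} [TopologicalSpace X]
  [TopologicalSpace Y]

/-- composition of a singular simplex with a homeomorphism -/
def mapSing (e : X ≃ₜ Y) (n : ℕ) : Sing X n ≃ Sing Y n where
  toFun σ := (⟨e, e.continuous⟩ : C(X, Y)).comp σ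
  invFun σ := (⟨e.symm, e.symm.continuous⟩ : C(Y, X)).comp σ
  left_inv σ := by ext x; simp
  right_inv σ := by ext x; simp

lemma mapSing_face (e : X ≃ₜ Y) (n : ℕ) (i : Fin (n + 2)) (σ : Sing X (n + 1)) :
    sface n i (mapSing e (n + 1) σ) = mapSing e n (sface n i σ) := rfl

/-- the pullback of cochains -/
def pull (k : Type v) [CommRing k] (e : X ≃ₜ Y) (n : ℕ) : (Sing Y n → k) ≃ₗ[k] (Sing X n → k) :=
  LinearEquiv.funCongrLeft k k (mapSing e n)

lemma pull_apply (e : X ≃ₜ Y) (n : ℕ) (f : Sing Y n → k) (σ : Sing X n) :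
    pull k e n f σ = f (mapSing e n σ) := rfl

lemma altd_pull (e : X ≃ₜ Y) (n : ℕ) (f : Sing Y n → k) :
    altd k (sface (X := X)) n (pull k e n f) = pull k e (n + 1) (altd k (sface (X := Y)) n f) := by
  funext σ
  rfl

lemma pull_mem_cocycles (e : X ≃ₜ Y) (n : ℕ) (f : Sing Y n → k) :
    pull k e n f ∈ cocycles k X n ↔ f ∈ cocycles k Y n := by
  unfold cocycles
  rw [LinearMap.mem_ker, LinearMap.mem_ker, altd_pull]
  exact LinearEquiv.map_eq_zero_iff _

lemma pull_mem_coboundaries (e : X ≃ₜ Y) (n : ℕ) (f : Sing Y n → k) :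
    pull k e n f ∈ coboundaries k X n ↔ f ∈ coboundaries k Y n := by
  cases n with
  | zero =>
    show pull k e 0 f ∈ (⊥ : Submodule k _) ↔ f ∈ (⊥ : Submodule k _)
    rw [Submodule.mem_bot, Submodule.mem_bot]
    exact LinearEquiv.map_eq_zero_iff _
  | succ n =>
    show pull k e (n + 1) f ∈ LinearMap.range _ ↔ f ∈ LinearMap.range _
    constructor
    · rintro ⟨h, hh⟩
      refine ⟨(pull k e n).symm h, ?_⟩
      apply (pull k e (n + 1)).injective
      rw [← altd_pull, LinearEquiv.apply_symm_apply, hh]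
    · rintro ⟨h, rfl⟩
      exact ⟨pull k e n h, altd_pull e n h⟩

/-- the isomorphism of the cocycles -/
def cocEquiv (k : Type v) [CommRing k] (e : X ≃ₜ Y) (n : ℕ) :
    cocycles k Y n ≃ₗ[k] cocycles k X n :=
  (pull k e n).ofSubmodules (cocycles k Y n) (cocycles k X n) (by
    ext f
    rw [Submodule.mem_map]
    constructor
    · rintro ⟨h, hh, rfl⟩
      exact (pull_mem_cocycles e n h).2 hh
    · intro hf
      refine ⟨(pull k e n).symm f, ?_, LinearEquiv.apply_symm_apply _ _⟩
      rw [← pull_mem_cocycles e n, LinearEquiv.apply_symm_apply]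
      exact hf)

lemma cocEquiv_coe (e : X ≃ₜ Y) (n : ℕ) (f : cocycles k Y n) :
    ((cocEquiv k e n f : cocycles k X n) : Sing X n → k) = pull k e n f := rfl

/-- **homeomorphic spaces have isomorphic singular cohomology** -/
theorem singularCohomology_equiv (k : Type v) [CommRing k] (e : X ≃ₜ Y) (n : ℕ) :
    Nonempty (SingularCohomology k Y n ≃ₗ[k] SingularCohomology k X n) := by
  refine ⟨Submodule.Quotient.equiv _ _ (cocEquiv k e n) ?_⟩
  ext f
  rw [Submodule.mem_map]
  constructor
  · rintro ⟨h, hh, rfl⟩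
    exact (pull_mem_coboundaries e n _).2 hh
  · intro hf
    refine ⟨(cocEquiv k e n).symm f, ?_, LinearEquiv.apply_symm_apply _ _⟩
    show ((cocEquiv k e n).symm f : Sing Y n → k) ∈ coboundaries k Y n
    rw [← pull_mem_coboundaries e n]
    have : pull k e n ((cocEquiv k e n).symm f : cocycles k Y n) = (f : Sing X n → k) := by
      rw [← cocEquiv_coe, LinearEquiv.apply_symm_apply]
    show pull k e n ((cocEquiv k e n).symm f : cocycles k Y n) ∈ _
    rw [this]
    exact hf

/-- **homeomorphic spaces have the same total Betti number** -/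
theorem totalBetti_congr (k : Type v) [Field k] {X Y : Type u} [TopologicalSpace X]
    [TopologicalSpace Y] (e : X ≃ₜ Y) : totalBetti k X = totalBetti k Y := by
  unfold totalBetti
  congr 1
  funext N
  refine Finset.sum_congr rfl fun n _ => ?_
  obtain ⟨E⟩ := singularCohomology_equiv k e n
  rw [E.rank_eq]

end Pool.Agent.U834.TwoN
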