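import Pool.Agent.U834.TwoN.Grp

/-! Bounds for the cardinalities of the antipodal subsets of the two quotients. -/

set_option autoImplicit false

open scoped Manifold ContDiff Topology ENNReal Quaternion
open Set Module
open Pool.Agent.Y503.HC

noncomputable section

namespace Pool.Agent.U834.TwoN

/-! ### Lines of unit quaternions -/

/-- the unit quaternions `x` and `y` agree up to sign -/
def Pm (x y : S3) : Prop := Sg (x⁻¹ * y)

lemma Pm.refl (x : S3) : Pm x x := by unfold Pm; rw [inv_mul_cancel]; exact Sg.one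

lemma Pm.symm {x y : S3} (h : Pm x y) : Pm y x := by
  unfold Pm at *
  have := h.inv
  rwa [mul_inv_rev, inv_inv] at this

lemma Pm.trans {x y z : S3} (h : Pm x y) (h' : Pm y z) : Pm x z := by
  unfold Pm at *
  have := h.mul h'
  rwa [mul_assoc, mul_inv_cancel_left] at this

/-- lines -/
def ln : Setoid S3 := ⟨Pm, Pm.refl, Pm.symm, Pm.trans⟩

/-- the coordinates of a triple -/
def co (x : NN) : Fin 3 → S3 := ![x.1, x.2.1, x.2.2]

lemma co_ext {x y : NN} (h : ∀ i, co x i = co y i) : x = y :=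
  Prod.ext (h 0) (Prod.ext (h 1) (h 2))

lemma co_mul (x y : NN) (i : Fin 3) : co (x * y) i = co x i * co y i := by
  fin_cases i <;> rfl

lemma co_inv (x : NN) (i : Fin 3) : co x⁻¹ i = (co x i)⁻¹ := by
  fin_cases i <;> rfl

lemma Sg3.co {a : NN} (h : Sg3 a) (i : Fin 3) : Sg (co a i) := by
  fin_cases i
  · exact h.1
  · exact h.2.1
  · exact h.2.2

/-- the alternatives for a coordinate of a pair of antipodal points -/
lemma coord {a x y : S3} (ha : Sg a) (h : a * y = x * y⁻¹ * x) :
    (a = 1 ∧ Pm x y) ∨ ((a : ℍ[ℝ]) = -1 ∧ ¬ Pm x y ∧ inner ℝ (x : ℍ[ℝ]) (y : ℍ[ℝ]) = 0) := by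
  have h1 := fix_coord ha h
  rcases ha with ha | ha
  · left
    have h2 : a = 1 := Subtype.ext (by rw [ha, Metric.unitSphere.coe_one])
    exact ⟨h2, sq_one (by rw [h1, h2])⟩
  · right
    refine ⟨ha, ?_, ?_⟩
    · intro hP
      have h3 : a = 1 := by rw [← h1]; exact Sg.sq hP
      rw [h3, Metric.unitSphere.coe_one] at ha
      have := congrArg (fun z : ℍ[ℝ] => z.re) ha
      simp at this
      linarith
    · rw [inner_S3]
      exact re_of_sq (by rw [h1, ha])

/-- two points of a quotient of `S³ × S³ × S³` are antipodal, for the group `DD` -/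
def Ant (x y : NN) : Prop := ∃ γ ∈ DD, γ * y = x * y⁻¹ * x

lemma Ant.coord {x y : NN} (h : Ant x y) : ∃ γ ∈ DD, ∀ i,
    (co γ i = 1 ∧ Pm (co x i) (co y i)) ∨ (((co γ i : S3) : ℍ[ℝ]) = -1 ∧ ¬ Pm (co x i) (co y i) ∧
      inner ℝ ((co x i : S3) : ℍ[ℝ]) ((co y i : S3) : ℍ[ℝ]) = 0) := by
  obtain ⟨γ, hγ, h⟩ := h
  refine ⟨γ, hγ, fun i => TwoN.coord ((DD_sg hγ).co i) ?_⟩
  have := congrArg (fun z : NN => co z i) h
  simpa only [co_mul, co_inv] using this

/-- some coordinate agrees -/
lemma Ant.exists_coord {x y : NN} (h : Ant x y) : ∃ i, Pm (co x i) (co y i) := by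
  obtain ⟨γ, hγ, h⟩ := h.coord
  by_contra hcon
  push Not at hcon
  have h0 := ((h 0).resolve_left fun h' => hcon 0 h'.2).1
  have h1 := ((h 1).resolve_left fun h' => hcon 1 h'.2).1
  have h2 := ((h 2).resolve_left fun h' => hcon 2 h'.2).1
  have h3 : co γ 0 * co γ 1 * co γ 2 = 1 := hγ.2
  have h4 := congrArg (fun z : S3 => (z : ℍ[ℝ])) h3
  simp only [Metric.unitSphere.coe_mul, Metric.unitSphere.coe_one, h0, h1, h2] at h4
  have := congrArg (fun z : ℍ[ℝ] => z.re) h4
  simp at this
  linarith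

/-- if two coordinates agree then so does the third one -/
lemma Ant.all {x y : NN} (h : Ant x y) (i : Fin 3) (h1 : Pm (co x i) (co y i))
    (h2 : Pm (co x (i + 1)) (co y (i + 1))) : ∀ j, Pm (co x j) (co y j) := by
  obtain ⟨γ, hγ, h⟩ := h.coord
  have e1 : co γ i = 1 := by
    rcases h i with h' | h'
    · exact h'.1
    · exact absurd h1 h'.2.1
  have e2 : co γ (i + 1) = 1 := by
    rcases h (i + 1) with h' | h'
    · exact h'.1
    · exact absurd h2 h'.2.1
  have h3 : co γ 0 * co γ 1 * co γ 2 = 1 := hγ.2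
  have e3 : co γ (i + 2) = 1 := by
    fin_cases i
    · have e1' : co γ 0 = 1 := e1
      have e2' : co γ 1 = 1 := e2
      rw [e1', e2', one_mul, one_mul] at h3
      exact h3
    · have e1' : co γ 1 = 1 := e1
      have e2' : co γ 2 = 1 := e2
      rw [e1', e2', mul_one, mul_one] at h3
      exact h3
    · have e1' : co γ 2 = 1 := e1
      have e2' : co γ 0 = 1 := e2
      rw [e1', e2', mul_one, one_mul] at h3
      exact h3
  have h4 : Pm (co x (i + 2)) (co y (i + 2)) := by
    rcases h (i + 2) with h' | h'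
    · exact h'.2
    · have := h'.1
      rw [e3, Metric.unitSphere.coe_one] at this
      have := congrArg (fun z : ℍ[ℝ] => z.re) this
      simp at this
      linarith
  intro j
  fin_cases i <;> fin_cases j <;> assumption

/-- the triple `(1, 1, -1)` -/
def zz : NN := (1, 1, ⟨-1, by simp⟩)

lemma zz_sg : Sg3 zz := ⟨Sg.one, Sg.one, Or.inr rfl⟩

/-- the points with the same coordinates up to sign: at most two points of the quotient -/
lemma two_points {x y : NN} (h : ∀ j, Pm (co x j) (co y j)) :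
    (∃ γ ∈ DD, γ * x = y) ∨ ∃ γ ∈ DD, γ * (zz * x) = y := by
  set δ : NN := x⁻¹ * y with hδ
  have hsg : Sg3 δ := ⟨h 0, h 1, h 2⟩
  have hy : δ * x = y := by
    rw [hsg.comm, hδ, mul_inv_cancel_left]
  by_cases hD : δ ∈ DD
  · exact Or.inl ⟨δ, hD, hy⟩
  · right
    refine ⟨δ * zz, ?_, ?_⟩
    · refine ⟨⟨hsg.1.mul zz_sg.1, hsg.2.1.mul zz_sg.2.1, hsg.2.2.mul zz_sg.2.2⟩, ?_⟩
      have hne : ¬ (δ.1 * δ.2.1 * δ.2.2 = 1) := fun h => hD ⟨hsg, h⟩
      have hs : Sg (δ.1 * δ.2.1 * δ.2.2) := (hsg.1.mul hsg.2.1).mul hsg.2.2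
      have h5 : ((δ.1 * δ.2.1 * δ.2.2 : S3) : ℍ[ℝ]) = -1 := by
        rcases hs with h | h
        · exact absurd (Subtype.ext (by rw [h, Metric.unitSphere.coe_one])) hne
        · exact h
      show (δ.1 * 1) * (δ.2.1 * 1) * (δ.2.2 * zz.2.2) = 1
      rw [mul_one, mul_one, ← mul_assoc]
      apply Subtype.ext
      rw [Metric.unitSphere.coe_mul, h5]
      show -1 * (-1 : ℍ[ℝ]) = ((1 : S3) : ℍ[ℝ])
      rw [Metric.unitSphere.coe_one]
      simp
    · calc δ * zz * (zz * x) = δ * (zz * zz) * x := by simp only [mul_assoc]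
        _ = y := by rw [zz_sg.sq, mul_one, hy]

/-- **the upper bound** -/
theorem card_le {Q : Type} {p : NN → Q} (hs : Function.Surjective p)
    (f1 : ∀ x y : NN, p x = p y ↔ ∃ γ ∈ DD, γ * x = y) (T : Finset Q)
    (hT : ∀ x y : NN, p x ∈ T → p y ∈ T → Ant x y) : T.card ≤ 24 := by
  classical
  by_contra hcon
  push Not at hcon
  set r : Q → NN := Function.surjInv hs with hr
  have hpr : ∀ q, p (r q) = q := Function.surjInv_eq hs
  have hant : ∀ q ∈ T, ∀ q' ∈ T, Ant (r q) (r q') := by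
    intro q hq q' hq'
    apply hT <;> rw [hpr] <;> assumption
  obtain ⟨q0, hq0⟩ : T.Nonempty := Finset.card_pos.1 (by omega)
  -- the coordinate in which a point agrees with the base point
  have hc : ∀ q : Q, ∃ i : Fin 3, q ∈ T → Pm (co (r q0) i) (co (r q) i) := by
    intro q
    by_cases hq : q ∈ T
    · obtain ⟨i, hi⟩ := (hant q0 hq0 q hq).exists_coord
      exact ⟨i, fun _ => hi⟩
    · exact ⟨0, fun h => absurd h hq⟩
  choose c hc using hc
  obtain ⟨i, -, hi⟩ := Finset.exists_lt_card_fiber_of_mul_lt_card_of_maps_to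
    (s := T) (t := (Finset.univ : Finset (Fin 3))) (f := c) (n := 8)
    (fun _ _ => Finset.mem_univ _) (by simpa using hcon)
  set U := T.filter (fun q => c q = i) with hU
  have hUT : ∀ q ∈ U, q ∈ T := fun q hq => (Finset.mem_filter.1 hq).1
  have hUP : ∀ q ∈ U, ∀ q' ∈ U, Pm (co (r q) i) (co (r q') i) := by
    intro q hq q' hq'
    obtain ⟨a1, a2⟩ := Finset.mem_filter.1 hq
    obtain ⟨b1, b2⟩ := Finset.mem_filter.1 hq'
    have e1 := hc q a1
    have e2 := hc q' b1
    rw [a2] at e1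
    rw [b2] at e2
    exact e1.symm.trans e2
  -- the lines in the next coordinate
  let ℓ : Q → Quotient ln := fun q => Quotient.mk ln (co (r q) (i + 1))
  have hℓ : ∀ q q', ℓ q = ℓ q' ↔ Pm (co (r q) (i + 1)) (co (r q') (i + 1)) := by
    intro q q'
    exact Quotient.eq (r := ln)
  -- at most two points on every line
  have hfib : ∀ m ∈ U.image ℓ, (U.filter (fun q => ℓ q = m)).card ≤ 2 := by
    intro m hm
    obtain ⟨q1, hq1, rfl⟩ := Finset.mem_image.1 hm
    have hsub : U.filter (fun q => ℓ q = ℓ q1) ⊆ {q1, p (zz * r q1)} := by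
      intro q hq
      obtain ⟨hqU, hq⟩ := Finset.mem_filter.1 hq
      have h2 := (hℓ _ _).1 hq.symm
      have h3 := (hant q1 (hUT _ hq1) q (hUT _ hqU)).all i (hUP q1 hq1 q hqU) h2
      rw [Finset.mem_insert, Finset.mem_singleton]
      rcases two_points h3 with h4 | h4
      · left
        rw [← f1, hpr, hpr] at h4
        exact h4.symm
      · right
        rw [← f1, hpr] at h4
        exact h4.symm
    exact (Finset.card_le_card hsub).trans Finset.card_le_two
  have h1 : U.card ≤ 2 * (U.image ℓ).card := Finset.card_le_mul_card_image U 2 hfib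
  -- at most four lines
  have h2 : (U.image ℓ).card ≤ 4 := by
    have hrep : ∀ m : U.image ℓ, ∃ q ∈ U, ℓ q = m := fun m => Finset.mem_image.1 m.2
    choose w hw hw' using hrep
    let v : U.image ℓ → ℍ[ℝ] := fun m => ((co (r (w m)) (i + 1) : S3) : ℍ[ℝ])
    have hv : Orthonormal ℝ v := by
      refine ⟨fun m => norm_S3 _, ?_⟩
      intro m m' hmm
      have h3 : ¬ Pm (co (r (w m)) (i + 1)) (co (r (w m')) (i + 1)) := by
        rw [← hℓ, hw', hw']
        exact fun h => hmm (Subtype.ext h)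
      obtain ⟨γ, -, h4⟩ := (hant (w m) (hUT _ (hw m)) (w m') (hUT _ (hw m'))).coord
      rcases h4 (i + 1) with h5 | h5
      · exact absurd h5.2 h3
      · exact h5.2.2
    have h5 := hv.linearIndependent.fintype_card_le_finrank
    rw [Quaternion.finrank_eq_four, Fintype.card_coe] at h5
    exact h5
  have h3 : 8 < U.card := hi
  omega

end Pool.Agent.U834.TwoN
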