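import Pool.Agent.U834.TwoN.Base

/-! Maps of the covering manifold which descend to the quotient; the quotients of
`S³ × S³ × S³` by groups of central elements. -/

set_option autoImplicit false

open scoped Manifold ContDiff Topology ENNReal Quaternion
open Set Bundle Bornology Filter Manifold Module
open Pool.Agent.Y503.HC

noncomputable section

namespace Pool.Agent.U834.TwoN

section Descend

variable {E : Type} [NormedAddCommGroup E] [NormedSpace ℝ E] {H : Type} [TopologicalSpace H]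
  {I : ModelWithCorners ℝ E H}
  {M : Type} [TopologicalSpace M] [ChartedSpace H M] [IsManifold I ∞ M]
  {N : Type} [TopologicalSpace N] [ChartedSpace H N] [IsManifold I ∞ N]
  {g : Metric I M} {g' : Metric I N} {p : M → N}

omit [IsManifold I ∞ M] [IsManifold I ∞ N] in
/-- a smooth map which respects the fibres descends to a smooth map -/
lemma desc_smooth (hp : IsLocalDiffeomorph I I ∞ p) (hs : Function.Surjective p) {φ : M → M}
    (hφ : ContMDiff I I ∞ φ) {s : N → N} (h : ∀ x, s (p x) = p (φ x)) : ContMDiff I I ∞ s := by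
  intro q
  obtain ⟨x, rfl⟩ := hs q
  have hl := hp x
  have h1 : ContMDiffAt I I ∞ hl.localInverse (p x) := hl.localInverse_contMDiffAt
  have h2 : ContMDiffAt I I ∞ (fun z => p (φ z)) (hl.localInverse (p x)) :=
    (hp.contMDiff _).comp _ (hφ _)
  have h3 : ContMDiffAt I I ∞ (fun y => p (φ (hl.localInverse y))) (p x) :=
    ContMDiffAt.comp (g := fun z => p (φ z)) (f := hl.localInverse) (p x) h2 h1
  refine h3.congr_of_eventuallyEq ?_
  filter_upwards [hl.localInverse.open_source.mem_nhds hl.localInverse_mem_source] with y hy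
  rw [← h, hl.localInverse_right_inv hy]

/-- the descended map preserves the metric -/
lemma desc_iso (hp : IsLocalDiffeomorph I I ∞ p) (hs : Function.Surjective p)
    (hind : ∀ (x : M) (v w : TangentSpace I x),
      g'.inner (p x) (mfderiv I I p x v) (mfderiv I I p x w) = g.inner x v w)
    {φ : M → M} (hφ : ContMDiff I I ∞ φ)
    (hiso : ∀ (x : M) (v w : TangentSpace I x),
      g.inner (φ x) (mfderiv I I φ x v) (mfderiv I I φ x w) = g.inner x v w)
    {s : N → N} (h : ∀ x, s (p x) = p (φ x)) (q : N) (v : TangentSpace I q) :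
    g'.inner (s q) (mfderiv I I s q v) (mfderiv I I s q v) = g'.inner q v v := by
  have hsm := desc_smooth hp hs hφ h
  obtain ⟨x, rfl⟩ := hs q
  obtain ⟨u, hu⟩ : ∃ u : E, (mfderiv I I p x : E →L[ℝ] E) u = v :=
    ((hp x).mfderivToContinuousLinearEquiv (by simp)).surjective v
  have d1 : MDifferentiableAt I I p (φ x) := (hp.contMDiff _).mdifferentiableAt (by simp)
  have d2 : MDifferentiableAt I I φ x := (hφ x).mdifferentiableAt (by simp)
  have d3 : MDifferentiableAt I I s (p x) := (hsm _).mdifferentiableAt (by simp)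
  have d4 : MDifferentiableAt I I p x := (hp.contMDiff _).mdifferentiableAt (by simp)
  have e1 := mfderiv_comp x d1 d2
  have e2 := mfderiv_comp x d3 d4
  have e3 : s ∘ p = p ∘ φ := funext h
  have e5 : (mfderiv I I s (p x) : E →L[ℝ] E) v =
      (mfderiv I I p (φ x) : E →L[ℝ] E) ((mfderiv I I φ x : E →L[ℝ] E) u) := by
    have a1 : (mfderiv I I (p ∘ φ) x : E →L[ℝ] E) u =
      (mfderiv I I p (φ x) : E →L[ℝ] E) ((mfderiv I I φ x : E →L[ℝ] E) u) :=
      congrArg (fun L : E →L[ℝ] E => L u) e1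
    have a2 : (mfderiv I I (s ∘ p) x : E →L[ℝ] E) u =
      (mfderiv I I s (p x) : E →L[ℝ] E) ((mfderiv I I p x : E →L[ℝ] E) u) :=
      congrArg (fun L : E →L[ℝ] E => L u) e2
    rw [← hu, ← a1, ← a2]
    rw [e3]
  have h1 : (g'.inner (p (φ x)) : E →L[ℝ] E →L[ℝ] ℝ)
      ((mfderiv I I p (φ x) : E →L[ℝ] E) ((mfderiv I I φ x : E →L[ℝ] E) u))
      ((mfderiv I I p (φ x) : E →L[ℝ] E) ((mfderiv I I φ x : E →L[ℝ] E) u)) =
      (g.inner (φ x) : E →L[ℝ] E →L[ℝ] ℝ) ((mfderiv I I φ x : E →L[ℝ] E) u)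
        ((mfderiv I I φ x : E →L[ℝ] E) u) := hind (φ x) _ _
  have h2 : (g.inner (φ x) : E →L[ℝ] E →L[ℝ] ℝ) ((mfderiv I I φ x : E →L[ℝ] E) u)
        ((mfderiv I I φ x : E →L[ℝ] E) u) = (g.inner x : E →L[ℝ] E →L[ℝ] ℝ) u u := hiso x u u
  have h3 : (g'.inner (p x) : E →L[ℝ] E →L[ℝ] ℝ) ((mfderiv I I p x : E →L[ℝ] E) u)
      ((mfderiv I I p x : E →L[ℝ] E) u) = (g.inner x : E →L[ℝ] E →L[ℝ] ℝ) u u := hind x u u
  rw [hu] at h3
  have h4 : (g'.inner (s (p x)) : E →L[ℝ] E →L[ℝ] ℝ) ((mfderiv I I s (p x) : E →L[ℝ] E) v)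
      ((mfderiv I I s (p x) : E →L[ℝ] E) v) =
      (g'.inner (p (φ x)) : E →L[ℝ] E →L[ℝ] ℝ) ((mfderiv I I s (p x) : E →L[ℝ] E) v)
      ((mfderiv I I s (p x) : E →L[ℝ] E) v) := inner_congr' g' (h x) _ _
  refine h4.trans ?_
  rw [e5, h1, h2]
  exact h3.symm

end Descend

end Pool.Agent.U834.TwoN
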