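import Pool.Agent.U834.TwoN.Desc

/-! The differential of the symmetries. -/

set_option autoImplicit false

open scoped Manifold ContDiff Topology ENNReal Quaternion
open Set Bundle Bornology Filter Manifold Module
open Pool.Agent.Y503.HC

noncomputable section

namespace Pool.Agent.U834.TwoN

section ProdImm

variable {E1 : Type} [NormedAddCommGroup E1] [NormedSpace ℝ E1] {H1 : Type} [TopologicalSpace H1]
  {I1 : ModelWithCorners ℝ E1 H1} {M1 : Type} [TopologicalSpace M1] [ChartedSpace H1 M1]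
  {E2 : Type} [NormedAddCommGroup E2] [NormedSpace ℝ E2] {H2 : Type} [TopologicalSpace H2]
  {I2 : ModelWithCorners ℝ E2 H2} {M2 : Type} [TopologicalSpace M2] [ChartedSpace H2 M2]
  {V1 : Type} [NormedAddCommGroup V1] [InnerProductSpace ℝ V1]
  {V2 : Type} [NormedAddCommGroup V2] [InnerProductSpace ℝ V2]

lemma prodEmb_D1 {f1 : M1 → V1} {f2 : M2 → V2} (h1 : ContMDiff I1 𝓘(ℝ, V1) ∞ f1)
    (h2 : ContMDiff I2 𝓘(ℝ, V2) ∞ f2) (x : M1 × M2) (w : E1 × E2) :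
    (Dm (I1.prod I2) (prodEmb f1 f2) x w).fst = Dm I1 f1 x.1 w.1 := by
  have d0 : MDifferentiableAt (I1.prod I2) 𝓘(ℝ, WithLp 2 (V1 × V2)) (prodEmb f1 f2) x :=
    (prodEmb_smooth h1 h2 x).mdifferentiableAt (by simp)
  have e : (Dm (I1.prod I2) (prodEmb f1 f2) x w).fst =
    (WithLp.fstL 2 ℝ V1 V2) (Dm (I1.prod I2) (prodEmb f1 f2) x w) := rfl
  rw [e, ← Dm_clm d0]
  have d1 : MDifferentiableAt I1 𝓘(ℝ, V1) f1 x.1 := (h1 x.1).mdifferentiableAt (by simp)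
  have h3 := mfderiv_comp x d1 (mdifferentiableAt_fst (I := I1) (I' := I2) (x := x))
  have h4 := congrArg (fun L : E1 × E2 →L[ℝ] V1 => L w) h3
  rw [mfderiv_fst] at h4
  exact h4

lemma prodEmb_D2 {f1 : M1 → V1} {f2 : M2 → V2} (h1 : ContMDiff I1 𝓘(ℝ, V1) ∞ f1)
    (h2 : ContMDiff I2 𝓘(ℝ, V2) ∞ f2) (x : M1 × M2) (w : E1 × E2) :
    (Dm (I1.prod I2) (prodEmb f1 f2) x w).snd = Dm I2 f2 x.2 w.2 := by
  have d0 : MDifferentiableAt (I1.prod I2) 𝓘(ℝ, WithLp 2 (V1 × V2)) (prodEmb f1 f2) x :=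
    (prodEmb_smooth h1 h2 x).mdifferentiableAt (by simp)
  have e : (Dm (I1.prod I2) (prodEmb f1 f2) x w).snd =
    (WithLp.sndL 2 ℝ V1 V2) (Dm (I1.prod I2) (prodEmb f1 f2) x w) := rfl
  rw [e, ← Dm_clm d0]
  have d1 : MDifferentiableAt I2 𝓘(ℝ, V2) f2 x.2 := (h2 x.2).mdifferentiableAt (by simp)
  have h3 := mfderiv_comp x d1 (mdifferentiableAt_snd (I := I1) (I' := I2) (x := x))
  have h4 := congrArg (fun L : E1 × E2 →L[ℝ] V2 => L w) h3
  rw [mfderiv_snd] at h4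
  exact h4

end ProdImm

lemma cS_orth (x : S3) (w : E3) : inner ℝ (x : ℍ[ℝ]) (Dm (𝓡 3) cS x w) = 0 := by
  have h := range_mfderiv_coe_sphere (n := 3) x
  have h1 : Dm (𝓡 3) cS x w ∈ (Submodule.span ℝ {(x : ℍ[ℝ])})ᗮ := by
    rw [← h]
    exact ⟨w, rfl⟩
  exact (Submodule.mem_orthogonal_singleton_iff_inner_right.1 h1)

/-- the quaternion identity behind the symmetries -/
lemma quat_id (x y : ℍ[ℝ]) : x * star y * x = (2 * inner ℝ x y) • x - ‖x‖ ^ 2 • y := by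
  rw [inner_q, norm_sq_q]
  ext <;>
  simp only [Quaternion.re_mul, Quaternion.imI_mul, Quaternion.imJ_mul, Quaternion.imK_mul,
    Quaternion.re_star, Quaternion.imI_star, Quaternion.imJ_star, Quaternion.imK_star,
    Quaternion.re_sub, Quaternion.imI_sub, Quaternion.imJ_sub, Quaternion.imK_sub,
    Quaternion.re_smul, Quaternion.imI_smul, Quaternion.imJ_smul, Quaternion.imK_smul,
    smul_eq_mul] <;> ring

lemma quat_orth {x : ℍ[ℝ]} (hx : ‖x‖ = 1) {y : ℍ[ℝ]} (h : inner ℝ x y = 0) :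
    x * star y * x = -y := by
  rw [quat_id, h, hx]; simp

/-- a triple of linear isometries which act as `-1` on the orthogonal complements of `x` -/
theorem act3_neg (T : Fin 3 → ℍ[ℝ] ≃ₗᵢ[ℝ] ℍ[ℝ]) (x : NN) (hx : act3 T x = x)
    (h0 : ∀ w, inner ℝ (x.1 : ℍ[ℝ]) w = 0 → T 0 w = -w)
    (h1 : ∀ w, inner ℝ (x.2.1 : ℍ[ℝ]) w = 0 → T 1 w = -w)
    (h2 : ∀ w, inner ℝ (x.2.2 : ℍ[ℝ]) w = 0 → T 2 w = -w) (u : E3 × (E3 × E3)) :
    (mfderiv J3 J3 (act3 T) x : (E3 × (E3 × E3)) →L[ℝ] (E3 × (E3 × E3))) u = -u := by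
  have d1 : MDifferentiableAt J3 𝓘(ℝ, WW) FF (act3 T x) :=
    (FF_smooth _).mdifferentiableAt (by simp)
  have d2 : MDifferentiableAt J3 J3 (act3 T) x := (act3_smooth T x).mdifferentiableAt (by simp)
  have d3 : MDifferentiableAt J3 𝓘(ℝ, WW) FF x := (FF_smooth _).mdifferentiableAt (by simp)
  have e1 := mfderiv_comp x d1 d2
  have e2 : FF ∘ act3 T = LinearMap.toContinuousLinearMap (amb T) ∘ FF := funext (FF_act3 T)
  have e4 : Dm J3 (FF ∘ act3 T) x u = Dm J3 FF (act3 T x)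
      ((mfderiv J3 J3 (act3 T) x : (E3 × (E3 × E3)) →L[ℝ] (E3 × (E3 × E3))) u) :=
    congrArg (fun L : (E3 × (E3 × E3)) →L[ℝ] WW => L u) e1
  rw [e2, Dm_clm d3] at e4
  have e5 : LinearMap.toContinuousLinearMap (amb T) (Dm J3 FF x u) = -(Dm J3 FF x u) := by
    have a0 : (Dm J3 FF x u).fst = Dm (𝓡 3) cS x.1 u.1 :=
      prodEmb_D1 cS_smooth (prodEmb_smooth cS_smooth cS_smooth) x u
    have a1 : (Dm J3 FF x u).snd = Dm ((𝓡 3).prod (𝓡 3)) (prodEmb cS cS) x.2 u.2 :=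
      prodEmb_D2 cS_smooth (prodEmb_smooth cS_smooth cS_smooth) x u
    have a2 : (Dm J3 FF x u).snd.fst = Dm (𝓡 3) cS x.2.1 u.2.1 := by
      rw [a1]; exact prodEmb_D1 cS_smooth cS_smooth x.2 u.2
    have a3 : (Dm J3 FF x u).snd.snd = Dm (𝓡 3) cS x.2.2 u.2.2 := by
      rw [a1]; exact prodEmb_D2 cS_smooth cS_smooth x.2 u.2
    have b0 : T 0 (Dm J3 FF x u).fst = -(Dm J3 FF x u).fst := by
      apply h0; rw [a0]; exact cS_orth _ _
    have b1 : T 1 (Dm J3 FF x u).snd.fst = -(Dm J3 FF x u).snd.fst := by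
      apply h1; rw [a2]; exact cS_orth _ _
    have b2 : T 2 (Dm J3 FF x u).snd.snd = -(Dm J3 FF x u).snd.snd := by
      apply h2; rw [a3]; exact cS_orth _ _
    show WithLp.toLp 2 (T 0 (Dm J3 FF x u).fst,
      WithLp.toLp 2 (T 1 (Dm J3 FF x u).snd.fst, T 2 (Dm J3 FF x u).snd.snd)) = _
    rw [b0, b1, b2]
    rfl
  rw [e5, hx, ← map_neg] at e4
  exact (FF_inj x e4).symm

section Descend

variable {E : Type} [NormedAddCommGroup E] [NormedSpace ℝ E] {H : Type} [TopologicalSpace H]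
  {I : ModelWithCorners ℝ E H}
  {M : Type} [TopologicalSpace M] [ChartedSpace H M] [IsManifold I ∞ M]
  {N : Type} [TopologicalSpace N] [ChartedSpace H N] [IsManifold I ∞ N] {p : M → N}

omit [IsManifold I ∞ N] in
/-- the differential of the descended map at a fixed point -/
lemma desc_neg (hp : IsLocalDiffeomorph I I ∞ p) (hs : Function.Surjective p)
    {φ : M → M} (hφ : ContMDiff I I ∞ φ) {s : N → N} (h : ∀ x, s (p x) = p (φ x)) {x : M}
    (hx : φ x = x) (hneg : ∀ u : E, (mfderiv I I φ x : E →L[ℝ] E) u = -u) (v : E) :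
    (mfderiv I I s (p x) : E →L[ℝ] E) v = -v := by
  have hsm := desc_smooth hp hs hφ h
  obtain ⟨u, hu⟩ : ∃ u : E, (mfderiv I I p x : E →L[ℝ] E) u = v :=
    ((hp x).mfderivToContinuousLinearEquiv (by simp)).surjective v
  have d1 : MDifferentiableAt I I p (φ x) := (hp.contMDiff _).mdifferentiableAt (by simp)
  have d2 : MDifferentiableAt I I φ x := (hφ x).mdifferentiableAt (by simp)
  have d3 : MDifferentiableAt I I s (p x) := (hsm _).mdifferentiableAt (by simp)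
  have d4 : MDifferentiableAt I I p x := (hp.contMDiff _).mdifferentiableAt (by simp)
  have e1 := mfderiv_comp x d1 d2
  have e2 := mfderiv_comp x d3 d4
  have e3 : s ∘ p = p ∘ φ := funext h
  have e5 : (mfderiv I I s (p x) : E →L[ℝ] E) v =
      (mfderiv I I p (φ x) : E →L[ℝ] E) ((mfderiv I I φ x : E →L[ℝ] E) u) := by
    have a1 : (mfderiv I I (p ∘ φ) x : E →L[ℝ] E) u =
      (mfderiv I I p (φ x) : E →L[ℝ] E) ((mfderiv I I φ x : E →L[ℝ] E) u) :=
      congrArg (fun L : E →L[ℝ] E => L u) e1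
    have a2 : (mfderiv I I (s ∘ p) x : E →L[ℝ] E) u =
      (mfderiv I I s (p x) : E →L[ℝ] E) ((mfderiv I I p x : E →L[ℝ] E) u) :=
      congrArg (fun L : E →L[ℝ] E => L u) e2
    rw [← hu, ← a1, ← a2]
    rw [e3]
  have e6 : (mfderiv I I p (φ x) : E →L[ℝ] E) u = v :=
    (congrArg (fun z : M => (mfderiv I I p z : E →L[ℝ] E) u) hx).trans hu
  have e7 : (mfderiv I I p (φ x) : E →L[ℝ] E) (-u) = -((mfderiv I I p (φ x) : E →L[ℝ] E) u) :=
    ContinuousLinearMap.map_neg (mfderiv I I p (φ x) : E →L[ℝ] E) u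
  have e8 : (mfderiv I I p (φ x) : E →L[ℝ] E) ((mfderiv I I φ x : E →L[ℝ] E) u) =
    (mfderiv I I p (φ x) : E →L[ℝ] E) (-u) :=
    congrArg (fun w : E => (mfderiv I I p (φ x) : E →L[ℝ] E) w) (hneg u)
  exact e5.trans (e8.trans (e7.trans (congrArg Neg.neg e6)))

end Descend

end Pool.Agent.U834.TwoN
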