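import Pool.Agent.U834.TwoN.Sym

/-! Two groups of triples of signs, and the homeomorphism of the two quotients. -/

set_option autoImplicit false

open scoped Manifold ContDiff Topology ENNReal Quaternion
open Set Module
open Pool.Agent.Y503.HC

noncomputable section

namespace Pool.Agent.U834.TwoN

lemma Sg.one : Sg 1 := Or.inl Metric.unitSphere.coe_one

lemma Sg.mul {a b : S3} (ha : Sg a) (hb : Sg b) : Sg (a * b) := by
  unfold Sg
  rw [Metric.unitSphere.coe_mul]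
  rcases ha with ha | ha <;> rcases hb with hb | hb <;> rw [ha, hb] <;> simp

lemma Sg.inv_eq {a : S3} (ha : Sg a) : a⁻¹ = a := inv_eq_of_mul_eq_one_right ha.sq

lemma Sg.inv {a : S3} (ha : Sg a) : Sg a⁻¹ := by rw [ha.inv_eq]; exact ha

/-- the triples of signs with product one -/
def DD : Subgroup NN where
  carrier := {a | Sg3 a ∧ a.1 * a.2.1 * a.2.2 = 1}
  one_mem' := ⟨⟨Sg.one, Sg.one, Sg.one⟩, by simp⟩
  mul_mem' := by
    rintro a b ⟨ha, ha'⟩ ⟨hb, hb'⟩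
    refine ⟨⟨ha.1.mul hb.1, ha.2.1.mul hb.2.1, ha.2.2.mul hb.2.2⟩, ?_⟩
    show (a.1 * b.1) * (a.2.1 * b.2.1) * (a.2.2 * b.2.2) = 1
    calc (a.1 * b.1) * (a.2.1 * b.2.1) * (a.2.2 * b.2.2)
        = a.1 * (b.1 * a.2.1) * (b.2.1 * a.2.2) * b.2.2 := by simp only [mul_assoc]
      _ = a.1 * (a.2.1 * b.1) * (a.2.2 * b.2.1) * b.2.2 := by
          rw [hb.1.comm, hb.2.1.comm]
      _ = (a.1 * a.2.1) * (b.1 * a.2.2) * b.2.1 * b.2.2 := by simp only [mul_assoc]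
      _ = (a.1 * a.2.1 * a.2.2) * (b.1 * b.2.1 * b.2.2) := by
          rw [hb.1.comm]; simp only [mul_assoc]
      _ = 1 := by rw [ha', hb', one_mul]
  inv_mem' := by
    rintro a ⟨ha, ha'⟩
    refine ⟨⟨ha.1.inv, ha.2.1.inv, ha.2.2.inv⟩, ?_⟩
    show a.1⁻¹ * a.2.1⁻¹ * a.2.2⁻¹ = 1
    rw [ha.1.inv_eq, ha.2.1.inv_eq, ha.2.2.inv_eq]
    exact ha'

/-- the triples of signs with last entry one -/
def EE : Subgroup NN where
  carrier := {a | Sg3 a ∧ a.2.2 = 1}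
  one_mem' := ⟨⟨Sg.one, Sg.one, Sg.one⟩, rfl⟩
  mul_mem' := by
    rintro a b ⟨ha, ha'⟩ ⟨hb, hb'⟩
    refine ⟨⟨ha.1.mul hb.1, ha.2.1.mul hb.2.1, ha.2.2.mul hb.2.2⟩, ?_⟩
    show a.2.2 * b.2.2 = 1
    rw [ha', hb', one_mul]
  inv_mem' := by
    rintro a ⟨ha, ha'⟩
    refine ⟨⟨ha.1.inv, ha.2.1.inv, ha.2.2.inv⟩, ?_⟩
    show a.2.2⁻¹ = 1
    rw [ha', inv_one]

lemma DD_sg {a : NN} (h : a ∈ DD) : Sg3 a := h.1

lemma EE_sg {a : NN} (h : a ∈ EE) : Sg3 a := h.1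

lemma finite_Sg : {a : S3 | Sg a}.Finite := by
  have h : ({1, -1} : Set ℍ[ℝ]).Finite := by simp
  have h2 : {a : S3 | Sg a} = (fun a : S3 => (a : ℍ[ℝ])) ⁻¹' {1, -1} := by
    ext a; simp [Sg]
  rw [h2]
  exact h.preimage Subtype.val_injective.injOn

lemma finite_Sg3 : {a : NN | Sg3 a}.Finite := by
  have h2 : {a : NN | Sg3 a} = {a : S3 | Sg a} ×ˢ ({a : S3 | Sg a} ×ˢ {a : S3 | Sg a}) := by
    ext a; rfl
  rw [h2]
  exact finite_Sg.prod (finite_Sg.prod finite_Sg)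

instance : Finite DD := (finite_Sg3.subset fun _ h => DD_sg h).to_subtype

instance : Finite EE := (finite_Sg3.subset fun _ h => EE_sg h).to_subtype

/-- the twist -/
def tw (x : NN) : NN := (x.1, x.2.1, (x.1 * x.2.1)⁻¹ * x.2.2)

/-- the inverse twist -/
def tw' (x : NN) : NN := (x.1, x.2.1, (x.1 * x.2.1) * x.2.2)

lemma tw_tw' (x : NN) : tw (tw' x) = x := by
  refine Prod.ext rfl (Prod.ext rfl ?_)
  show (x.1 * x.2.1)⁻¹ * ((x.1 * x.2.1) * x.2.2) = x.2.2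
  rw [inv_mul_cancel_left]

lemma tw'_tw (x : NN) : tw' (tw x) = x := by
  refine Prod.ext rfl (Prod.ext rfl ?_)
  show (x.1 * x.2.1) * ((x.1 * x.2.1)⁻¹ * x.2.2) = x.2.2
  rw [mul_inv_cancel_left]

lemma continuous_tw : Continuous tw := by
  unfold tw
  fun_prop

/-- signs can be pulled out -/
lemma tw_key {a b : S3} (ha : Sg a) (hb : Sg b) {c : S3} (hc : Sg c) (u v w : S3) :
    ((a * u) * (b * v))⁻¹ * (c * w) = (a * b * c) * ((u * v)⁻¹ * w) := by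
  have h1 : (a * u) * (b * v) = (a * b) * (u * v) := by
    calc (a * u) * (b * v) = a * (u * b) * v := by simp only [mul_assoc]
      _ = a * (b * u) * v := by rw [hb.comm]
      _ = _ := by simp only [mul_assoc]
  have h2 : (a * b)⁻¹ = a * b := (ha.mul hb).inv_eq
  have h3 : Sg (a * b * c) := (ha.mul hb).mul hc
  rw [h1, mul_inv_rev, h2, ← mul_assoc (a * b * c), h3.comm]
  simp only [mul_assoc]

/-- the twist relates the two groups -/
lemma tw_rel (x y : NN) : (∃ γ ∈ DD, γ * x = y) ↔ ∃ γ ∈ EE, γ * tw x = tw y := by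
  constructor
  · rintro ⟨γ, hγ, rfl⟩
    refine ⟨(γ.1, γ.2.1, 1), ⟨⟨hγ.1.1, hγ.1.2.1, Sg.one⟩, rfl⟩, ?_⟩
    refine Prod.ext rfl (Prod.ext rfl ?_)
    show 1 * ((x.1 * x.2.1)⁻¹ * x.2.2) = ((γ.1 * x.1) * (γ.2.1 * x.2.1))⁻¹ * (γ.2.2 * x.2.2)
    rw [tw_key hγ.1.1 hγ.1.2.1 hγ.1.2.2, hγ.2]
  · rintro ⟨ε, hε, h⟩
    have h1 : ε.1 * x.1 = y.1 := congrArg Prod.fst h
    have h2 : ε.2.1 * x.2.1 = y.2.1 := congrArg (fun z : NN => z.2.1) h
    have h3 : ε.2.2 * ((x.1 * x.2.1)⁻¹ * x.2.2) = (y.1 * y.2.1)⁻¹ * y.2.2 :=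
      congrArg (fun z : NN => z.2.2) h
    have h4 : Sg (ε.1 * ε.2.1) := hε.1.1.mul hε.1.2.1
    refine ⟨(ε.1, ε.2.1, ε.1 * ε.2.1), ⟨⟨hε.1.1, hε.1.2.1, h4⟩, h4.sq⟩, ?_⟩
    refine Prod.ext h1 (Prod.ext h2 ?_)
    show (ε.1 * ε.2.1) * x.2.2 = y.2.2
    have h5 := tw_key hε.1.1 hε.1.2.1 h4 x.1 x.2.1 x.2.2
    rw [h4.sq, h1, h2] at h5
    rw [hε.2, ← h5] at h3
    exact mul_left_cancel h3

/-- a continuous surjection from the compact space to a Hausdorff space is a quotient map -/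
lemma isQuot {Q : Type} [TopologicalSpace Q] [T2Space Q] {p : NN → Q} (h : Continuous p)
    (hs : Function.Surjective p) : Topology.IsQuotientMap p :=
  h.isClosedMap.isQuotientMap h hs

/-- **the two quotients are homeomorphic** -/
theorem homeo {Q1 Q2 : Type} [TopologicalSpace Q1] [T2Space Q1] [TopologicalSpace Q2] [T2Space Q2]
    {p1 : NN → Q1} {p2 : NN → Q2} (h1 : Continuous p1) (s1 : Function.Surjective p1)
    (f1 : ∀ x y : NN, p1 x = p1 y ↔ ∃ γ ∈ DD, γ * x = y)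
    (h2 : Continuous p2) (s2 : Function.Surjective p2)
    (f2 : ∀ x y : NN, p2 x = p2 y ↔ ∃ γ ∈ EE, γ * x = y) : Nonempty (Q1 ≃ₜ Q2) := by
  have hc : CompactSpace Q1 := s1.compactSpace h1
  let f : Q1 → Q2 := fun q => p2 (tw (Function.surjInv s1 q))
  have hf : ∀ x, f (p1 x) = p2 (tw x) := by
    intro x
    show p2 (tw (Function.surjInv s1 (p1 x))) = p2 (tw x)
    rw [f2, ← tw_rel, ← f1]
    exact Function.surjInv_eq s1 (p1 x)
  have hcont : Continuous f := by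
    rw [(isQuot h1 s1).continuous_iff]
    have : f ∘ p1 = p2 ∘ tw := funext hf
    rw [this]
    exact h2.comp continuous_tw
  have hinj : Function.Injective f := by
    intro q r h
    obtain ⟨x, rfl⟩ := s1 q
    obtain ⟨y, rfl⟩ := s1 r
    rw [hf, hf, f2, ← tw_rel, ← f1] at h
    exact h
  have hsurj : Function.Surjective f := by
    intro q
    obtain ⟨x, rfl⟩ := s2 q
    exact ⟨p1 (tw' x), by rw [hf, tw_tw']⟩
  exact ⟨hcont.homeoOfEquivCompactToT2 (f := Equiv.ofBijective f ⟨hinj, hsurj⟩)⟩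

end Pool.Agent.U834.TwoN
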