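import Pool.Agent.U834.TwoN.Count
import Pool.Agent.U834.TwoN.Coh
import Pool.Agent.Helper381.Main

/-! Two Riemannian symmetric spaces which are homeomorphic and have different two-numbers. -/

set_option autoImplicit false

open scoped Manifold ContDiff Topology ENNReal Quaternion
open Set Bundle Bornology Filter Manifold Module
open Pool.Agent.Y503.HC
open Pool.Agent.Helper381

noncomputable section

namespace Pool.Agent.U834.TwoN

/-- an orthonormal basis of the quaternions -/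
def bs : OrthonormalBasis (Fin 4) ℝ ℍ[ℝ] :=
  (stdOrthonormalBasis ℝ ℍ[ℝ]).reindex (finCongr Quaternion.finrank_eq_four)

/-- the basis vectors as unit quaternions -/
def e (i : Fin 4) : S3 := ⟨bs i, by rw [mem_sphere_zero_iff_norm]; exact bs.orthonormal.1 i⟩

lemma inner_e {i k : Fin 4} (h : i ≠ k) : inner ℝ ((e i : S3) : ℍ[ℝ]) ((e k : S3) : ℍ[ℝ]) = 0 :=
  bs.orthonormal.2 h

/-- the sign `-1` -/
def mo : S3 := ⟨-1, by simp⟩

lemma mo_sg : Sg mo := Or.inr rfl

lemma e_rel (i k : Fin 4) : ∃ a : S3, Sg a ∧ a * (e i * (e k)⁻¹ * e i) = e k := by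
  by_cases h : i = k
  · subst h
    exact ⟨1, Sg.one, by group⟩
  · refine ⟨mo, mo_sg, ?_⟩
    apply Subtype.ext
    rw [Metric.unitSphere.coe_mul, Metric.unitSphere.coe_mul, Metric.unitSphere.coe_mul,
      coe_inv_S3, quat_orth (norm_S3 (e i)) (inner_e h)]
    show -1 * -((e k : S3) : ℍ[ℝ]) = _
    simp

lemma e_ne {a : S3} (ha : Sg a) {i k : Fin 4} (h : a * e i = e k) : i = k := by
  by_contra hne
  have h1 := inner_e hne
  rw [← h, Metric.unitSphere.coe_mul] at h1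
  have h2 : inner ℝ ((e i : S3) : ℍ[ℝ]) ((e i : S3) : ℍ[ℝ]) = 1 := by
    rw [real_inner_self_eq_norm_sq, norm_S3]; norm_num
  rcases ha with ha | ha
  · rw [ha, one_mul, h2] at h1
    norm_num at h1
  · rw [ha, neg_one_mul, inner_neg_right, h2] at h1
    norm_num at h1

/-- the signs -/
def sg (b : Bool) : S3 := if b then 1 else mo

lemma sg_inj {b c : Bool} (h : sg b = sg c) : b = c := by
  have key : (1 : S3) ≠ mo := by
    intro h
    have h1 := congrArg (fun z : S3 => (z : ℍ[ℝ]).re) h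
    rw [Metric.unitSphere.coe_one] at h1
    have h2 : ((mo : S3) : ℍ[ℝ]) = -1 := rfl
    rw [h2] at h1
    simp at h1
    linarith
  cases b <;> cases c
  · rfl
  · exact absurd h.symm key
  · exact absurd h key
  · rfl

lemma sg_sg (b : Bool) : Sg (sg b) := by
  cases b
  · exact mo_sg
  · exact Sg.one

lemma sg_rel (b c : Bool) : sg b * (sg c)⁻¹ * sg b = sg c := by
  rw [(sg_sg c).inv_eq, mul_assoc, (sg_sg c).comm, ← mul_assoc, (sg_sg b).sq, one_mul]

/-- the points of the antipodal set -/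
def pt (t : Fin 4 × Fin 4 × Bool) : NN := (e t.1, e t.2.1, sg t.2.2)

/-- **the lower bound** -/
theorem lower {Q : Type} [MetricSpace Q] {p : NN → Q} 
    (f2 : ∀ x y : NN, p x = p y ↔ ∃ γ ∈ EE, γ * x = y) (hsym : IsSymmetric Q)
    (hs : ∀ (x : NN) (s : Q ≃ᵢ Q), IsSymmetryAt (p x) s → ∀ y : NN, s (p y) = p (x * y⁻¹ * x)) :
    32 ≤ twoNumber Q := by
  have hinj : Function.Injective (fun t => p (pt t)) := by
    intro t t' h
    obtain ⟨ε, hε, h⟩ := (f2 _ _).1 h
    have h1 : ε.1 * e t.1 = e t'.1 := congrArg Prod.fst h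
    have h2 : ε.2.1 * e t.2.1 = e t'.2.1 := congrArg (fun z : NN => z.2.1) h
    have h3 : ε.2.2 * sg t.2.2 = sg t'.2.2 := congrArg (fun z : NN => z.2.2) h
    rw [hε.2, one_mul] at h3
    exact Prod.ext (e_ne hε.1.1 h1) (Prod.ext (e_ne hε.1.2.1 h2) (sg_inj h3))
  have hanti : IsAntipodal (Set.range (fun t => p (pt t))) := by
    rintro _ ⟨t, rfl⟩ _ ⟨t', rfl⟩
    obtain ⟨s, hs'⟩ := hsym (p (pt t))
    refine ⟨s, hs', ?_⟩
    show s (p (pt t')) = p (pt t')
    rw [hs _ s hs', f2]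
    obtain ⟨a, ha, ha'⟩ := e_rel t.1 t'.1
    obtain ⟨b, hb, hb'⟩ := e_rel t.2.1 t'.2.1
    refine ⟨(a, b, 1), ⟨⟨ha, hb, Sg.one⟩, rfl⟩, ?_⟩
    refine Prod.ext ha' (Prod.ext hb' ?_)
    show 1 * (sg t.2.2 * (sg t'.2.2)⁻¹ * sg t.2.2) = sg t'.2.2
    rw [one_mul, sg_rel]
  have hcard : 32 ≤ (Set.range (fun t => p (pt t))).encard := by
    refine le_trans ?_ hinj.encard_range
    rw [ENat.card_eq_coe_fintype_card]
    simp
  refine hcard.trans ?_
  exact le_iSup (fun A : {A : Set Q // IsAntipodal A} => A.1.encard) ⟨_, hanti⟩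

/-- **the upper bound** -/
theorem upper {Q : Type} [MetricSpace Q] {p : NN → Q} (hsurj : Function.Surjective p)
    (f1 : ∀ x y : NN, p x = p y ↔ ∃ γ ∈ DD, γ * x = y)
    (hs : ∀ (x : NN) (s : Q ≃ᵢ Q), IsSymmetryAt (p x) s → ∀ y : NN, s (p y) = p (x * y⁻¹ * x)) :
    twoNumber Q ≤ 24 := by
  apply iSup_le
  rintro ⟨A, hA⟩
  show A.encard ≤ 24
  by_contra hcon
  push Not at hcon
  obtain ⟨B, hBA, hB⟩ : ∃ B ⊆ A, B.encard = 25 := by
    apply Set.exists_subset_encard_eq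
    have : (24 : ℕ∞) + 1 ≤ A.encard := Order.add_one_le_of_lt hcon
    have h2 : (24 : ℕ∞) + 1 = 25 := by norm_num
    rwa [h2] at this
  have hBf : B.Finite := Set.finite_of_encard_eq_coe (k := 25) hB
  have hcard : hBf.toFinset.card = 25 := by
    have := hBf.encard_eq_coe_toFinset_card
    rw [hB] at this
    exact_mod_cast this.symm
  have h := card_le hsurj f1 hBf.toFinset (by
    intro x y hx hy
    rw [hBf.mem_toFinset] at hx hy
    obtain ⟨s, hs1, hs2⟩ := hA (p x) (hBA hx) (p y) (hBA hy)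
    rw [hs x s hs1] at hs2
    exact (f1 _ _).1 hs2.symm)
  omega

end Pool.Agent.U834.TwoN
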