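import Pool.Agent.U834.TwoN.Diff

/-! The quotients of `S³ × S³ × S³` by finite groups of left translations. -/

set_option autoImplicit false

open scoped Manifold ContDiff Topology ENNReal Quaternion
open Set Bundle Bornology Filter Manifold Module
open Pool.Agent.Y503.HC

noncomputable section

namespace Pool.Agent.U834.TwoN

/-- left multiplication as a linear isometry -/
def Lq (a : ℍ[ℝ]) (ha : ‖a‖ = 1) : ℍ[ℝ] ≃ₗᵢ[ℝ] ℍ[ℝ] where
  toFun q := a * q
  invFun q := star a * q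
  map_add' x y := mul_add a x y
  map_smul' c x := by simp
  left_inv q := by
    show star a * (a * q) = q
    rw [← mul_assoc, star_mul_self_unit ha, one_mul]
  right_inv q := by
    show a * (star a * q) = q
    rw [← mul_assoc, self_mul_star_unit ha, one_mul]
  norm_map' q := by
    show ‖a * q‖ = ‖q‖
    rw [norm_mul, ha, one_mul]

/-- the three left multiplications -/
def L3 (a : NN) : Fin 3 → ℍ[ℝ] ≃ₗᵢ[ℝ] ℍ[ℝ] :=
  ![Lq a.1 (norm_S3 a.1), Lq a.2.1 (norm_S3 a.2.1), Lq a.2.2 (norm_S3 a.2.2)]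

lemma act3_L3 (a x : NN) : act3 (L3 a) x = a * x := rfl

/-- left translation as a diffeomorphism -/
def lD (a : NN) : Diffeomorph J3 J3 NN NN ∞ where
  toFun := act3 (L3 a)
  invFun := act3 (L3 a⁻¹)
  left_inv x := by rw [act3_L3, act3_L3, inv_mul_cancel_left]
  right_inv x := by rw [act3_L3, act3_L3, mul_inv_cancel_left]
  contMDiff_toFun := act3_smooth _
  contMDiff_invFun := act3_smooth _

lemma lD_isometry (a : NN) : IsIsometry gN (lD a) := fun x v w => act3_isom (L3 a) x v w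

/-- the model vector space -/
abbrev E9 : Type := E3 × (E3 × E3)

lemma J3_eq : (J3 : ModelWithCorners ℝ E9 E9) = 𝓘(ℝ, E9) := by
  have h1 : 𝓘(ℝ, E3 × E3) = (𝓡 3).prod (𝓡 3) := modelWithCornersSelf_prod
  have h2 : 𝓘(ℝ, E9) = (𝓡 3).prod 𝓘(ℝ, E3 × E3) := modelWithCornersSelf_prod
  rw [h2, h1]

/-- the data needed about the quotients, for a general model with corners -/
def HasQuot (I : ModelWithCorners ℝ E9 E9) (Γ : Subgroup NN) : Prop :=
  ∃ (Q : Type) (_ : TopologicalSpace Q) (_ : ChartedSpace E9 Q) (_ : IsManifold I ∞ Q)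
    (_ : T2Space Q) (g' : Metric I Q) (p : NN → Q), Continuous p ∧ IsOpenMap p ∧
    Function.Surjective p ∧ (∀ x y : NN, p x = p y ↔ ∃ γ ∈ Γ, γ * x = y) ∧
    ∀ (T : Fin 3 → ℍ[ℝ] ≃ₗᵢ[ℝ] ℍ[ℝ]) (s : Q → Q), (∀ x, s (p x) = p (act3 T x)) →
      ContMDiff I I ∞ s ∧ (∀ (q : Q) (v : TangentSpace I q),
        g'.inner (s q) (mfderiv I I s q v) (mfderiv I I s q v) = g'.inner q v v) ∧
      ∀ x, act3 T x = x → (∀ u : E9, (mfderiv J3 J3 (act3 T) x : E9 →L[ℝ] E9) u = -u) →
        ∀ v : E9, (mfderiv I I s (p x) : E9 →L[ℝ] E9) v = -v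

theorem hasQuot_J3 (Γ : Subgroup NN) [Finite Γ] : HasQuot J3 Γ := by
  obtain ⟨Q, top, ch, man, ht2, g', p, hq⟩ := exists_quotient gN Γ
    (fun γ => ⟨lD (γ : NN), lD_isometry _, fun x => rfl⟩)
    (fun γ x h => by
      have h1 : (γ : NN) * x = x := h
      have h2 : (γ : NN) = 1 := by simpa using h1
      exact Subtype.ext h2)
  refine ⟨Q, top, ch, man, ht2, g', p, hq.covering.continuous,
    hq.covering.isLocalHomeomorph.isOpenMap, hq.surjective, ?_, ?_⟩
  · intro x y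
    rw [hq.fibre]
    constructor
    · rintro ⟨γ, hγ⟩
      exact ⟨γ, γ.2, hγ⟩
    · rintro ⟨γ, hγ, h⟩
      exact ⟨⟨γ, hγ⟩, h⟩
  · intro T s h
    exact ⟨desc_smooth hq.localDiffeo hq.surjective (act3_smooth T) h,
      desc_iso hq.localDiffeo hq.surjective hq.induced (act3_smooth T) (act3_isom T) h,
      fun x hx hneg v => desc_neg hq.localDiffeo hq.surjective (act3_smooth T) h hx hneg v⟩

theorem hasQuot (Γ : Subgroup NN) [Finite Γ] : HasQuot 𝓘(ℝ, E9) Γ := by
  rw [← J3_eq]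
  exact hasQuot_J3 Γ

end Pool.Agent.U834.TwoN
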