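import Pool.Agent.U834.TwoN.Quo
import Pool.Agent.Q145.TN.Metrize

/-! The quotients of `S³ × S³ × S³` by groups of triples of signs are Riemannian symmetric
spaces. -/

set_option autoImplicit false

open scoped Manifold ContDiff Topology ENNReal Quaternion
open Set Bundle Bornology Filter Manifold Module
open Pool.Agent.Y503.HC
open Pool.Agent.Helper381

noncomputable section

namespace Pool.Agent.U834.TwoN

/-- the symmetry of the unit quaternions at `x` -/
def Sq (x : ℍ[ℝ]) (hx : ‖x‖ = 1) : ℍ[ℝ] ≃ₗᵢ[ℝ] ℍ[ℝ] where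
  toFun y := x * star y * x
  invFun y := x * star y * x
  map_add' a b := by rw [star_add, mul_add, add_mul]
  map_smul' c a := by simp [Quaternion.star_smul]
  left_inv y := by
    show x * star (x * star y * x) * x = y
    rw [star_mul, star_mul, star_star]
    calc x * (star x * (y * star x)) * x = (x * star x) * y * (star x * x) := by
          simp only [mul_assoc]
      _ = y := by rw [self_mul_star_unit hx, star_mul_self_unit hx, one_mul, mul_one]
  right_inv y := by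
    show x * star (x * star y * x) * x = y
    rw [star_mul, star_mul, star_star]
    calc x * (star x * (y * star x)) * x = (x * star x) * y * (star x * x) := by
          simp only [mul_assoc]
      _ = y := by rw [self_mul_star_unit hx, star_mul_self_unit hx, one_mul, mul_one]
  norm_map' y := by
    show ‖x * star y * x‖ = ‖y‖
    rw [norm_mul, norm_mul, hx, one_mul, mul_one, norm_star]

lemma coe_inv_S3 (q : S3) : ((q⁻¹ : S3) : ℍ[ℝ]) = star (q : ℍ[ℝ]) := by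
  rw [Metric.unitSphere.coe_inv]
  exact inv_eq_of_mul_eq_one_right (self_mul_star_unit (norm_S3 q))

/-- the three symmetries -/
def T3 (x : NN) : Fin 3 → ℍ[ℝ] ≃ₗᵢ[ℝ] ℍ[ℝ] :=
  ![Sq x.1 (norm_S3 x.1), Sq x.2.1 (norm_S3 x.2.1), Sq x.2.2 (norm_S3 x.2.2)]

lemma sphMap_Sq (x y : S3) : sphMap (Sq x (norm_S3 x)) y = x * y⁻¹ * x := by
  apply Subtype.ext
  show (x : ℍ[ℝ]) * star (y : ℍ[ℝ]) * x = ((x * y⁻¹ * x : S3) : ℍ[ℝ])
  rw [Metric.unitSphere.coe_mul, Metric.unitSphere.coe_mul, coe_inv_S3]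

lemma act3_T3 (x y : NN) : act3 (T3 x) y = x * y⁻¹ * x :=
  Prod.ext (sphMap_Sq _ _) (Prod.ext (sphMap_Sq _ _) (sphMap_Sq _ _))

/-- the quaternion is a sign -/
def Sg (a : S3) : Prop := (a : ℍ[ℝ]) = 1 ∨ (a : ℍ[ℝ]) = -1

/-- a triple of signs -/
def Sg3 (a : NN) : Prop := Sg a.1 ∧ Sg a.2.1 ∧ Sg a.2.2

lemma Sg.comm {a : S3} (h : Sg a) (x : S3) : a * x = x * a := by
  apply Subtype.ext
  rw [Metric.unitSphere.coe_mul, Metric.unitSphere.coe_mul]
  rcases h with h | h <;> rw [h] <;> simp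

lemma Sg.sq {a : S3} (h : Sg a) : a * a = 1 := by
  apply Subtype.ext
  rw [Metric.unitSphere.coe_mul, Metric.unitSphere.coe_one]
  rcases h with h | h <;> rw [h] <;> simp

lemma Sg3.comm {a : NN} (h : Sg3 a) (x : NN) : a * x = x * a :=
  Prod.ext (h.1.comm _) (Prod.ext (h.2.1.comm _) (h.2.2.comm _))

lemma Sg3.sq {a : NN} (h : Sg3 a) : a * a = 1 :=
  Prod.ext h.1.sq (Prod.ext h.2.1.sq h.2.2.sq)

/-- the open set of the unit quaternions near `x` -/
def near (x : S3) : Set S3 := {y | 0 < inner ℝ (x : ℍ[ℝ]) (y : ℍ[ℝ])}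

lemma isOpen_near (x : S3) : IsOpen (near x) := by
  apply isOpen_lt continuous_const
  exact continuous_const.inner continuous_subtype_val

lemma mem_near (x : S3) : x ∈ near x := by
  show 0 < inner ℝ (x : ℍ[ℝ]) (x : ℍ[ℝ])
  rw [real_inner_self_eq_norm_sq, norm_S3]
  norm_num

lemma inner_S3 (x y : S3) : inner ℝ (x : ℍ[ℝ]) (y : ℍ[ℝ]) = ((x⁻¹ * y : S3) : ℍ[ℝ]).re := by
  rw [inner_eq_re, Metric.unitSphere.coe_mul, coe_inv_S3]

/-- a unit quaternion whose square is `1` -/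
lemma sq_one {u : S3} (h : u * u = 1) : Sg u := by
  have h1 : (u : ℍ[ℝ]) * u = 1 := by
    have := congrArg (fun z : S3 => (z : ℍ[ℝ])) h
    simpa using this
  have h2 : ((u : ℍ[ℝ]) - 1) * ((u : ℍ[ℝ]) + 1) = 0 := by
    rw [sub_mul, mul_add, h1, mul_one, one_mul]; abel
  rcases mul_eq_zero.1 h2 with h3 | h3
  · exact Or.inl (sub_eq_zero.1 h3)
  · exact Or.inr (eq_neg_of_add_eq_zero_left h3)

/-- a unit quaternion whose square is `-1` -/
lemma re_of_sq {u : S3} (h : ((u * u : S3) : ℍ[ℝ]) = -1) : (u : ℍ[ℝ]).re = 0 := by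
  rw [Metric.unitSphere.coe_mul] at h
  by_contra hne
  have h1 : ((u : ℍ[ℝ]) * u).imI = 0 := by rw [h]; simp
  have h2 : ((u : ℍ[ℝ]) * u).imJ = 0 := by rw [h]; simp
  have h3 : ((u : ℍ[ℝ]) * u).imK = 0 := by rw [h]; simp
  have h4 : ((u : ℍ[ℝ]) * u).re = -1 := by rw [h]; simp
  simp only [Quaternion.re_mul, Quaternion.imI_mul, Quaternion.imJ_mul, Quaternion.imK_mul]
    at h1 h2 h3 h4
  have i1 : (u : ℍ[ℝ]).imI = 0 := by
    have : (u : ℍ[ℝ]).re * (u : ℍ[ℝ]).imI = 0 := by linarith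
    exact (mul_eq_zero.1 this).resolve_left hne
  have i2 : (u : ℍ[ℝ]).imJ = 0 := by
    have : (u : ℍ[ℝ]).re * (u : ℍ[ℝ]).imJ = 0 := by linarith
    exact (mul_eq_zero.1 this).resolve_left hne
  have i3 : (u : ℍ[ℝ]).imK = 0 := by
    have : (u : ℍ[ℝ]).re * (u : ℍ[ℝ]).imK = 0 := by linarith
    exact (mul_eq_zero.1 this).resolve_left hne
  rw [i1, i2, i3] at h4
  nlinarith [sq_nonneg (u : ℍ[ℝ]).re]

/-- the equation of the fixed points -/
lemma fix_coord {a x y : S3} (ha : Sg a) (h : a * y = x * y⁻¹ * x) :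
    (x⁻¹ * y) * (x⁻¹ * y) = a := by
  have h1 : x⁻¹ * y * a = y⁻¹ * x := by
    rw [mul_assoc, ← ha.comm y, h]; group
  have h2 : a = (x⁻¹ * y)⁻¹ * (x⁻¹ * y)⁻¹ := by
    calc a = (x⁻¹ * y)⁻¹ * (x⁻¹ * y * a) := by group
      _ = _ := by rw [h1]; group
  have h3 : a * a = 1 := ha.sq
  calc (x⁻¹ * y) * (x⁻¹ * y) = ((x⁻¹ * y)⁻¹ * (x⁻¹ * y)⁻¹)⁻¹ := by group
    _ = a⁻¹ := by rw [← h2]
    _ = a := inv_eq_of_mul_eq_one_right h3

/-- near `x` the symmetry composed with a sign only fixes `x` -/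
lemma eq_of_near {a x y : S3} (ha : Sg a) (h : a * y = x * y⁻¹ * x) (hy : y ∈ near x) :
    y = x := by
  have h1 := fix_coord ha h
  have h2 : 0 < ((x⁻¹ * y : S3) : ℍ[ℝ]).re := by rw [← inner_S3]; exact hy
  rcases ha with ha | ha
  · have h3 : (x⁻¹ * y) * (x⁻¹ * y) = 1 := by
      rw [h1]; exact Subtype.ext (by rw [ha, Metric.unitSphere.coe_one])
    rcases sq_one h3 with h4 | h4
    · have h5 : x⁻¹ * y = 1 := Subtype.ext (by rw [h4, Metric.unitSphere.coe_one])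
      rw [inv_mul_eq_one] at h5
      exact h5.symm
    · rw [h4] at h2
      simp at h2
      linarith
  · have h3 := re_of_sq (u := x⁻¹ * y) (by rw [h1, ha])
    rw [h3] at h2
    exact absurd h2 (lt_irrefl _)

/-- the product neighbourhood -/
def near3 (x : NN) : Set NN := near x.1 ×ˢ (near x.2.1 ×ˢ near x.2.2)

lemma isOpen_near3 (x : NN) : IsOpen (near3 x) :=
  (isOpen_near _).prod ((isOpen_near _).prod (isOpen_near _))

lemma mem_near3 (x : NN) : x ∈ near3 x := ⟨mem_near _, mem_near _, mem_near _⟩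

instance : ConnectedSpace S3 := by
  rw [← isConnected_iff_connectedSpace]
  exact isConnected_sphere (by rw [← Module.finrank_eq_rank, Quaternion.finrank_eq_four]; norm_num) _
    zero_le_one

/-- **the quotient as a Riemannian symmetric space** -/
theorem exists_symmetric (Γ : Subgroup NN) [Finite Γ] (hΓ : ∀ γ ∈ Γ, Sg3 γ) :
    ∃ (Q : Type) (_ : MetricSpace Q) (_ : CompactSpace Q) (_ : ConnectedSpace Q)
      (_ : ChartedSpace E9 Q) (_ : IsManifold 𝓘(ℝ, E9) ∞ Q)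
      (_ : RiemannianBundle (fun x : Q => TangentSpace 𝓘(ℝ, E9) x))
      (_ : IsContMDiffRiemannianBundle 𝓘(ℝ, E9) ∞ E9 (fun x : Q => TangentSpace 𝓘(ℝ, E9) x))
      (_ : IsRiemannianManifold 𝓘(ℝ, E9) Q) (p : NN → Q),
      Continuous p ∧ Function.Surjective p ∧ (∀ x y : NN, p x = p y ↔ ∃ γ ∈ Γ, γ * x = y) ∧
      IsSymmetric Q ∧ ∀ (x : NN) (s : Q ≃ᵢ Q), IsSymmetryAt (p x) s →
        (∀ y : NN, s (p y) = p (x * y⁻¹ * x)) ∧ ContMDiff 𝓘(ℝ, E9) 𝓘(ℝ, E9) ∞ s ∧
        mfderiv 𝓘(ℝ, E9) 𝓘(ℝ, E9) s (p x) = -ContinuousLinearMap.id ℝ E9 := by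
  obtain ⟨Q, top, ch, man, ht2, g', p, hcont, hopen, hsurj, hfib, hmap⟩ := hasQuot Γ
  have hcomp : CompactSpace Q := hsurj.compactSpace hcont
  have hconn : ConnectedSpace Q := hsurj.connectedSpace hcont
  -- the symmetries
  have hwell : ∀ x y z : NN, p y = p z → p (x * y⁻¹ * x) = p (x * z⁻¹ * x) := by
    intro x y z h
    obtain ⟨γ, hγ, rfl⟩ := (hfib _ _).1 h
    rw [hfib]
    refine ⟨γ⁻¹, Γ.inv_mem hγ, ?_⟩
    have hc := (hΓ γ hγ).comm
    have hc' : ∀ w : NN, γ⁻¹ * w = w * γ⁻¹ := fun w => by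
      rw [inv_mul_eq_iff_eq_mul, ← mul_assoc, hc w, mul_assoc, mul_inv_cancel, mul_one]
    calc γ⁻¹ * (x * y⁻¹ * x) = x * (γ⁻¹ * y⁻¹) * x := by
          rw [hc' (x * y⁻¹ * x), mul_assoc (x * y⁻¹) x, ← hc' x, ← mul_assoc, mul_assoc x,
            ← hc' y⁻¹]
      _ = x * (y⁻¹ * γ⁻¹) * x := by rw [hc' y⁻¹]
      _ = x * (γ * y)⁻¹ * x := by rw [mul_inv_rev]
  let sm : NN → Q → Q := fun x q => p (x * (Function.surjInv hsurj q)⁻¹ * x)
  have hsm : ∀ x y : NN, sm x (p y) = p (x * y⁻¹ * x) := by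
    intro x y
    apply hwell
    exact Function.surjInv_eq hsurj (p y)
  have hsm' : ∀ x y : NN, sm x (p y) = p (act3 (T3 x) y) := by
    intro x y
    rw [hsm, act3_T3]
  have hinv : ∀ (x : NN) (q : Q), sm x (sm x q) = q := by
    intro x q
    obtain ⟨y, rfl⟩ := hsurj q
    rw [hsm x y, hsm x]
    congr 1
    group
  letI : MetricSpace Q := Q145.TN.mS g'
  have hle : ∀ (x : NN) (q r : Q), Pool.Agent.Y503.HC.dist g' (sm x q) (sm x r) ≤
      Pool.Agent.Y503.HC.dist g' q r := by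
    intro x q r
    obtain ⟨h1, h2, -⟩ := hmap (T3 x) (sm x) (hsm' x)
    exact dist_map_le g' g' h1 h2 q r
  let S : NN → (Q ≃ᵢ Q) := fun x =>
    { toFun := sm x
      invFun := sm x
      left_inv := hinv x
      right_inv := hinv x
      isometry_toFun := by
        intro q r
        show Pool.Agent.Y503.HC.dist g' (sm x q) (sm x r) = Pool.Agent.Y503.HC.dist g' q r
        apply le_antisymm (hle x q r)
        have := hle x (sm x q) (sm x r)
        rwa [hinv, hinv] at this }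
  have hS : ∀ x y : NN, S x (p y) = p (x * y⁻¹ * x) := hsm
  have hSym : ∀ x : NN, IsSymmetryAt (p x) (S x) := by
    intro x
    refine ⟨hinv x, ?_, ?_⟩
    · rw [hS, mul_inv_cancel, one_mul]
    · have ho : IsOpen (p '' near3 x) := hopen _ (isOpen_near3 x)
      obtain ⟨ε, hε, hball⟩ := Metric.isOpen_iff.1 ho (p x) ⟨x, mem_near3 x, rfl⟩
      refine ⟨ε, hε, ?_⟩
      intro q hq hfix
      obtain ⟨y, hy, rfl⟩ := hball (Metric.mem_ball.2 hq)
      rw [hS] at hfix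
      obtain ⟨γ, hγ, h⟩ := (hfib _ _).1 hfix.symm
      congr 1
      have hg := hΓ γ hγ
      refine Prod.ext ?_ (Prod.ext ?_ ?_)
      · exact eq_of_near hg.1 (congrArg Prod.fst h) hy.1
      · exact eq_of_near hg.2.1 (congrArg (fun z : NN => z.2.1) h) hy.2.1
      · exact eq_of_near hg.2.2 (congrArg (fun z : NN => z.2.2) h) hy.2.2
  letI : RiemannianBundle (fun x : Q => TangentSpace 𝓘(ℝ, E9) x) := Q145.TN.rb g'
  haveI : IsContMDiffRiemannianBundle 𝓘(ℝ, E9) ∞ E9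
      (fun x : Q => TangentSpace 𝓘(ℝ, E9) x) := Q145.TN.smooth_rb g'
  haveI : IsRiemannianManifold 𝓘(ℝ, E9) Q := Q145.TN.irm g'
  obtain ⟨R, G⟩ := riemannian_geo (E := E9) (M := Q)
  refine ⟨Q, inferInstance, hcomp, hconn, ch, man, inferInstance, inferInstance, inferInstance, p,
    hcont, hsurj, hfib, ?_, ?_⟩
  · intro q
    obtain ⟨x, rfl⟩ := hsurj q
    exact ⟨S x, hSym x⟩
  · intro x s hs
    have hu : ∀ q, s q = sm x q := G.symm_unique hs (hSym x)
    have hu' : (s : Q → Q) = sm x := funext hu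
    obtain ⟨h1, -, h3⟩ := hmap (T3 x) (sm x) (hsm' x)
    refine ⟨fun y => by rw [hu, hsm], by rw [hu']; exact h1, ?_⟩
    have hx : act3 (T3 x) x = x := by rw [act3_T3, mul_inv_cancel, one_mul]
    have hneg := act3_neg (T3 x) x hx (fun w hw => quat_orth (norm_S3 x.1) hw)
      (fun w hw => quat_orth (norm_S3 x.2.1) hw) (fun w hw => quat_orth (norm_S3 x.2.2) hw)
    have h4 := h3 x hx hneg
    rw [hu']
    apply ContinuousLinearMap.ext
    intro v
    exact h4 v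

end Pool.Agent.U834.TwoN
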